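import Pool.Agent.Helper1_RL.Stmts
import Pool.Agent.Helper36_RF.Chr

/-!
# A lower Ricci bound on a dense set holds everywhere (module CONT, helper31)
-/

noncomputable section

open scoped ContDiff Topology RealInnerProductSpace
set_option maxSynthPendingDepth 3
open Set Metric

namespace Pool.Agent.RLim.H31

open Pool.Agent.RLim Pool.Agent.RF

variable {ι : Type} [Fintype ι] [DecidableEq ι]

/-- the Ricci tensor is continuous -/
theorem continuousOn_ric {G : E ι → Bil (E ι)} {U : Set (E ι)} (h : IsMetricOn G U)
    (v w : E ι) : ContinuousOn (fun x => ric G x v w) U := by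
  have hc := h.contDiffOn_chris
  have h0 : ∀ a b : E ι, ContinuousOn (fun y => chris G y a b) U := fun a b =>
    (h.contDiffOn_chris' a b).continuousOn
  have h1 : ∀ a b u : E ι, ContinuousOn (fun x => fderiv ℝ (fun y => chris G y a b) x u) U := by
    intro a b u
    have h2 : ContDiffOn ℝ ∞ (fderiv ℝ (fun y => chris G y a b)) U :=
      (h.contDiffOn_chris' a b).fderiv_of_isOpen h.isOpen (by simp)
    exact h2.continuousOn.clm_apply continuousOn_const
  have h3 : ∀ u a b : E ι, ContinuousOn (fun x => chris G x u (chris G x a b)) U := by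
    intro u a b
    have := hc.continuousOn.comp (s := U) (f := fun x : E ι => (x, u, chris G x a b))
      (continuousOn_id.prodMk (continuousOn_const.prodMk (h0 a b))) (fun y hy => ⟨hy, trivial⟩)
    exact this
  have h4 : ∀ u : E ι, ContinuousOn (fun x => riem G x u v w) U := by
    intro u
    unfold riem
    exact (((h1 v w u).sub (h1 u w v)).add (h3 u v w)).sub (h3 v u w)
  unfold ric
  refine continuousOn_finset_sum _ fun i _ => ?_
  exact (EuclideanSpace.proj i : E ι →L[ℝ] ℝ).continuous.comp_continuousOn (h4 (eb i))

/-- CONT -/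
theorem cont : ContStmt := by
  intro ι _ _ G U D lam h hUD hD x hx V
  have hf : ContinuousOn (fun x => ric G x V V - -lam * G x V V) U := by
    refine (continuousOn_ric h V V).sub (continuousOn_const.mul ?_)
    exact (h.smooth.continuousOn.clm_apply continuousOn_const).clm_apply continuousOn_const
  have h1 : x ∈ closure (U ∩ D) := hUD hx
  have h2 : ContinuousWithinAt (fun x => ric G x V V - -lam * G x V V) (U ∩ D) x :=
    (hf x hx).mono inter_subset_left
  have h3 : (0:ℝ) ≤ ric G x V V - -lam * G x V V := by
    have h4 := h2.mem_closure_image h1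
    have h5 : closure ((fun x => ric G x V V - -lam * G x V V) '' (U ∩ D)) ⊆ Ici 0 := by
      refine closure_minimal ?_ isClosed_Ici
      rintro _ ⟨y, hy, rfl⟩
      exact sub_nonneg.2 (hD y hy V)
    exact h5 h4
  linarith

end Pool.Agent.RLim.H31
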