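import Pool.Agent.Helper1_RL.Stmts

/-!
# The neck metric is a smooth metric, with bounds (module NM, helper31)
-/

noncomputable section

open scoped ContDiff Topology RealInnerProductSpace
set_option maxSynthPendingDepth 3
open Set Metric

namespace Pool.Agent.RLim.H31

open Pool.Agent.RLim Pool.Agent.RF

theorem cd4 (i : Fin 4) : ContDiff ℝ ∞ (fun x : E4 => x i) :=
  ((EuclideanSpace.proj i : E4 →L[ℝ] ℝ)).contDiff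

theorem contDiff_YY : ContDiff ℝ ∞ YY := by
  rw [contDiff_euclidean]
  intro i
  fin_cases i
  · exact contDiff_const
  · exact contDiff_const
  · exact (cd4 3).neg
  · exact cd4 2

theorem contDiff_sq_YY : ContDiff ℝ ∞ (fun X : E4 => sq (YY X)) := by
  unfold sq
  exact ((innerSL ℝ).contDiff.comp contDiff_YY).smulRight ((innerSL ℝ).contDiff.comp contDiff_YY)

theorem contDiff_sq_id : ContDiff ℝ ∞ (fun X : E4 => sq X) := by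
  unfold sq
  exact ((innerSL ℝ).contDiff).smulRight ((innerSL ℝ).contDiff)

theorem rdl_pos {δ : ℝ} (hδ : 0 < δ) (X : E4) : 0 < Prof.rdl δ X := by
  unfold Prof.rdl
  exact Real.sqrt_pos.2 (by positivity)

theorem rdl_sq {δ : ℝ} (X : E4) : Prof.rdl δ X ^ 2 = X 2 ^ 2 + X 3 ^ 2 + δ ^ 2 :=
  Real.sq_sqrt (by positivity)

theorem le_rdl {δ : ℝ} (X : E4) : δ ≤ Prof.rdl δ X := by
  apply Real.le_sqrt_of_sq_le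
  nlinarith [sq_nonneg (X 2), sq_nonneg (X 3)]

theorem norm_sq4 (X : E4) : ‖X‖ ^ 2 = X 0 ^ 2 + X 1 ^ 2 + X 2 ^ 2 + X 3 ^ 2 := by
  rw [EuclideanSpace.norm_sq_eq]
  simp [Fin.sum_univ_four]

theorem rdl_sub_le {δ : ℝ} (hδ : 0 < δ) (X : E4) : Prof.rdl δ X - δ ≤ ‖X‖ := by
  have h1 := rdl_sq (δ := δ) X
  have h2 := norm_sq4 X
  have h3 := norm_nonneg X
  by_contra hcon
  push Not at hcon
  have h4 : (‖X‖ + δ) ^ 2 < Prof.rdl δ X ^ 2 :=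
    pow_lt_pow_left₀ (by linarith) (by positivity) (by norm_num)
  nlinarith [sq_nonneg (X 0), sq_nonneg (X 1), mul_nonneg h3 hδ.le]

theorem contDiff_rdl {δ : ℝ} (hδ : 0 < δ) : ContDiff ℝ ∞ (Prof.rdl δ) := by
  unfold Prof.rdl
  refine ContDiff.sqrt ((((cd4 2).pow 2).add ((cd4 3).pow 2)).add contDiff_const) ?_
  intro X
  positivity

theorem norm_YY (X : E4) : ‖YY X‖ ^ 2 = X 2 ^ 2 + X 3 ^ 2 := by
  rw [EuclideanSpace.norm_sq_eq]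
  simp [Fin.sum_univ_four, YY]
  ring

theorem cdOn_norm : ContDiffOn ℝ ∞ (fun X : E4 => ‖X‖) (Om (Fin 4)) :=
  fun _ hx => (contDiffAt_norm ℝ hx).contDiffWithinAt

theorem cdOn_comp {f : ℝ → ℝ} (hf : ContDiffOn ℝ ∞ f (Ioi 0)) :
    ContDiffOn ℝ ∞ (fun X : E4 => f ‖X‖) (Om (Fin 4)) :=
  hf.comp cdOn_norm (fun _ hx => norm_pos_iff.2 hx)

theorem norm_ne {X : E4} (hX : X ∈ Om (Fin 4)) : ‖X‖ ≠ 0 := norm_ne_zero_iff.2 hX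

theorem isOpen_Om : IsOpen (Om (Fin 4)) := isOpen_compl_singleton

variable {q : Prof} {δ : ℝ}

theorem cdOn_lapse (hq : q.Ok) (hδ : 0 < δ) : ContDiffOn ℝ ∞ (q.lapse δ) (Om (Fin 4)) := by
  unfold Prof.lapse
  exact contDiffOn_const.sub (((cdOn_comp hq.n_smooth).div cdOn_norm (fun _ => norm_ne)).mul
    ((contDiff_rdl hδ).contDiffOn.sub contDiffOn_const))

theorem cdOn_Bh (hq : q.Ok) (hδ : 0 < δ) : ContDiffOn ℝ ∞ (q.Bh δ) (Om (Fin 4)) := by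
  unfold Prof.Bh
  have h1 := (contDiff_rdl hδ).contDiffOn (s := Om (Fin 4))
  have h0 : ∀ X ∈ Om (Fin 4), Prof.rdl δ X ≠ 0 := fun X _ => (rdl_pos hδ X).ne'
  have he : ContDiffOn ℝ ∞ (fun X : E4 => δ / Prof.rdl δ X) (Om (Fin 4)) :=
    contDiffOn_const.div h1 h0
  exact he.add (((cdOn_comp hq.β_smooth).mul (contDiffOn_const.sub he)).mul
    (contDiffOn_const.sub (((cdOn_comp hq.c_smooth).div cdOn_norm (fun _ => norm_ne)).mul h1)))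

theorem cdOn_HH (hq : q.Ok) (hδ : 0 < δ) : ContDiffOn ℝ ∞ (q.HH δ) (Om (Fin 4)) := by
  unfold Prof.HH
  have h1 := (contDiff_rdl hδ).contDiffOn (s := Om (Fin 4))
  have h0 : ∀ X ∈ Om (Fin 4), Prof.rdl δ X ≠ 0 := fun X _ => (rdl_pos hδ X).ne'
  have h0' : ∀ X ∈ Om (Fin 4), Prof.rdl δ X + δ ≠ 0 := fun X _ => (add_pos (rdl_pos hδ X) hδ).ne'
  refine ContDiffOn.div ?_ (h1.add contDiffOn_const) h0'
  refine ContDiffOn.mul ((cdOn_Bh hq hδ).add contDiffOn_const).neg ?_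
  exact ((contDiffOn_const.sub (cdOn_comp hq.β_smooth)).div h1 h0).add
    (((cdOn_comp hq.β_smooth).mul (cdOn_comp hq.c_smooth)).div cdOn_norm (fun _ => norm_ne))

theorem cdOn_neck (hq : q.Ok) (hδ : 0 < δ) : ContDiffOn ℝ ∞ (q.neck δ) (Om (Fin 4)) := by
  have e : q.neck δ = fun X => del (Fin 4)
      + ((q.lapse δ X ^ 2 / q.F ‖X‖ - 1) / ‖X‖ ^ 2) • sq X + q.HH δ X • sq (YY X) := by
    funext X
    unfold Prof.neck gen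
    rw [one_smul, zero_smul, add_zero]
  rw [e]
  have h2 : ContDiffOn ℝ ∞ (fun X : E4 => (q.lapse δ X ^ 2 / q.F ‖X‖ - 1) / ‖X‖ ^ 2)
      (Om (Fin 4)) := by
    refine ContDiffOn.div ?_ (cdOn_norm.pow 2) (fun X hX => pow_ne_zero 2 (norm_ne hX))
    exact (((cdOn_lapse hq hδ).pow 2).div (cdOn_comp hq.F_smooth)
      (fun X hX => (hq.F_pos _ (norm_pos_iff.2 hX)).ne')).sub contDiffOn_const
  exact (contDiffOn_const.add (h2.smul contDiff_sq_id.contDiffOn)).add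
    ((cdOn_HH hq hδ).smul contDiff_sq_YY.contDiffOn)

theorem neck_apply (X V W : E4) : q.neck δ X V W = ⟪V, W⟫
    + (q.lapse δ X ^ 2 / q.F ‖X‖ - 1) / ‖X‖ ^ 2 * (⟪X, V⟫ * ⟪X, W⟫)
    + q.HH δ X * (⟪YY X, V⟫ * ⟪YY X, W⟫) := by
  unfold Prof.neck
  rw [gen_apply]
  ring

theorem inner_X_YY (X : E4) : ⟪X, YY X⟫ = 0 := by
  simp [PiLp.inner_apply, Fin.sum_univ_four, YY]
  ring

/-- bounds of the lapse -/
theorem lapse_bounds (hq : q.Ok) (hδ : 0 < δ) {X : E4} (hX : X ≠ 0) :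
    7 / 8 ≤ q.lapse δ X ∧ q.lapse δ X ≤ 1 := by
  have hR : 0 < ‖X‖ := norm_pos_iff.2 hX
  have h1 := rdl_sub_le hδ X
  have h2 := sub_nonneg.2 (le_rdl (δ := δ) X)
  have h3 : q.n ‖X‖ / ‖X‖ * (Prof.rdl δ X - δ) ≤ 1 / 8 := by
    calc q.n ‖X‖ / ‖X‖ * (Prof.rdl δ X - δ) ≤ q.n ‖X‖ / ‖X‖ * ‖X‖ :=
          mul_le_mul_of_nonneg_left h1 (div_nonneg (hq.n_nonneg _ hR) hR.le)
      _ = q.n ‖X‖ := by field_simp
      _ ≤ 1 / 8 := hq.n_le _ hR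
  have h4 : 0 ≤ q.n ‖X‖ / ‖X‖ * (Prof.rdl δ X - δ) :=
    mul_nonneg (div_nonneg (hq.n_nonneg _ hR) hR.le) h2
  unfold Prof.lapse
  constructor <;> linarith

/-- `e`, `Bh` and the identity for `HH` -/
theorem Bh_bounds (hq : q.Ok) (hβ : ∀ R, 0 < R → q.β R ≤ 1) (hδ : 0 < δ) {X : E4} (hX : X ≠ 0) :
    7 / 8 * q.β ‖X‖ ≤ q.Bh δ X ∧ q.Bh δ X ≤ 1 := by
  have hR : 0 < ‖X‖ := norm_pos_iff.2 hX
  have hρ := rdl_pos hδ X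
  have hle := le_rdl (δ := δ) X
  have h1 := rdl_sub_le hδ X
  have hb0 := hq.β_pos _ hR
  have hb1 := hβ _ hR
  have hc0 := hq.c_nonneg _ hR
  have hc1 := hq.c_le _ hR
  have he0 : 0 < δ / Prof.rdl δ X := by positivity
  have he1 : δ / Prof.rdl δ X ≤ 1 := (div_le_one hρ).2 hle
  have e1 : (1 - δ / Prof.rdl δ X) * (q.c ‖X‖ / ‖X‖ * Prof.rdl δ X) =
      q.c ‖X‖ / ‖X‖ * (Prof.rdl δ X - δ) := by
    field_simp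
  have h5 : q.c ‖X‖ / ‖X‖ * (Prof.rdl δ X - δ) ≤ 1 / 8 := by
    calc q.c ‖X‖ / ‖X‖ * (Prof.rdl δ X - δ) ≤ q.c ‖X‖ / ‖X‖ * ‖X‖ :=
          mul_le_mul_of_nonneg_left h1 (div_nonneg hc0 hR.le)
      _ = q.c ‖X‖ := by field_simp
      _ ≤ 1 / 8 := hc1
  have h6 : 0 ≤ q.c ‖X‖ / ‖X‖ * (Prof.rdl δ X - δ) :=
    mul_nonneg (div_nonneg hc0 hR.le) (sub_nonneg.2 hle)
  have e2 : q.Bh δ X = δ / Prof.rdl δ X + q.β ‖X‖ * (1 - δ / Prof.rdl δ X)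
      - q.β ‖X‖ * (q.c ‖X‖ / ‖X‖ * (Prof.rdl δ X - δ)) := by
    unfold Prof.Bh
    rw [← e1]
    ring
  set e := δ / Prof.rdl δ X
  set t := q.c ‖X‖ / ‖X‖ * (Prof.rdl δ X - δ)
  rw [e2]
  constructor
  · nlinarith [mul_nonneg hb0.le (sub_nonneg.2 h5), mul_nonneg he0.le (sub_nonneg.2 hb1)]
  · nlinarith [mul_nonneg hb0.le h6, mul_nonneg (sub_nonneg.2 hb1) (sub_nonneg.2 he1)]

theorem HH_nonpos (hq : q.Ok) (hβ : ∀ R, 0 < R → q.β R ≤ 1) (hδ : 0 < δ) {X : E4} (hX : X ≠ 0) :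
    q.HH δ X ≤ 0 := by
  have hR : 0 < ‖X‖ := norm_pos_iff.2 hX
  have hρ := rdl_pos hδ X
  have hb0 := hq.β_pos _ hR
  have hb1 := hβ _ hR
  have hc0 := hq.c_nonneg _ hR
  have hB := (Bh_bounds hq hβ hδ hX).1
  have h1 : 0 ≤ (q.Bh δ X + 1) * ((1 - q.β ‖X‖) / Prof.rdl δ X + q.β ‖X‖ * q.c ‖X‖ / ‖X‖)
      / (Prof.rdl δ X + δ) := by
    refine div_nonneg (mul_nonneg (by nlinarith) (add_nonneg (div_nonneg (by linarith) hρ.le)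
      (by positivity))) (by positivity)
  unfold Prof.HH
  have e : -(q.Bh δ X + 1) * ((1 - q.β ‖X‖) / Prof.rdl δ X + q.β ‖X‖ * q.c ‖X‖ / ‖X‖)
      / (Prof.rdl δ X + δ) = -((q.Bh δ X + 1) * ((1 - q.β ‖X‖) / Prof.rdl δ X
      + q.β ‖X‖ * q.c ‖X‖ / ‖X‖) / (Prof.rdl δ X + δ)) := by ring
  rw [e]
  linarith

theorem HH_mul (hδ : 0 < δ) {X : E4} (hX : X ≠ 0) :
    q.HH δ X * (X 2 ^ 2 + X 3 ^ 2) = q.Bh δ X ^ 2 - 1 := by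
  have hR : ‖X‖ ≠ 0 := norm_ne_zero_iff.2 hX
  have hρ := rdl_pos hδ X
  have h1 : Prof.rdl δ X + δ ≠ 0 := by positivity
  have e1 : X 2 ^ 2 + X 3 ^ 2 = (Prof.rdl δ X - δ) * (Prof.rdl δ X + δ) := by
    have := rdl_sq (δ := δ) X
    linarith
  have e2 : q.Bh δ X - 1 = -((Prof.rdl δ X - δ) *
      ((1 - q.β ‖X‖) / Prof.rdl δ X + q.β ‖X‖ * q.c ‖X‖ / ‖X‖)) := by
    unfold Prof.Bh
    field_simp
    ring
  rw [e1]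
  have e3 : q.Bh δ X ^ 2 - 1 = (q.Bh δ X + 1) * (q.Bh δ X - 1) := by ring
  rw [e3, e2]
  unfold Prof.HH
  field_simp

/-- orthogonal decomposition -/
theorem decomp {X : E4} (hX : X ≠ 0) (V : E4) : ∃ p : ℝ, 0 ≤ p ∧
    ‖V‖ ^ 2 = p + ⟪X, V⟫ ^ 2 / ‖X‖ ^ 2 + ⟪YY X, V⟫ ^ 2 / (X 2 ^ 2 + X 3 ^ 2) := by
  have hR : 0 < ‖X‖ := norm_pos_iff.2 hX
  refine ⟨‖V‖ ^ 2 - ⟪X, V⟫ ^ 2 / ‖X‖ ^ 2 - ⟪YY X, V⟫ ^ 2 / (X 2 ^ 2 + X 3 ^ 2), ?_, by ring⟩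
  by_cases hz : X 2 ^ 2 + X 3 ^ 2 = 0
  · rw [hz, div_zero, sub_zero]
    have h1 := abs_real_inner_le_norm X V
    have h2 : ⟪X, V⟫ ^ 2 ≤ ‖X‖ ^ 2 * ‖V‖ ^ 2 := by
      rw [← sq_abs, ← mul_pow]
      exact pow_le_pow_left₀ (abs_nonneg _) h1 2
    have h3 : ⟪X, V⟫ ^ 2 / ‖X‖ ^ 2 ≤ ‖V‖ ^ 2 := by
      rw [div_le_iff₀ (by positivity)]
      linarith
    linarith
  · have hz0 : 0 < X 2 ^ 2 + X 3 ^ 2 := lt_of_le_of_ne (by positivity) (Ne.symm hz)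
    have h1 : 0 ≤ ‖V - (⟪X, V⟫ / ‖X‖ ^ 2) • X - (⟪YY X, V⟫ / (X 2 ^ 2 + X 3 ^ 2)) • YY X‖ ^ 2 :=
      sq_nonneg _
    have hYY : ⟪YY X, YY X⟫ = X 2 ^ 2 + X 3 ^ 2 := by
      rw [real_inner_self_eq_norm_sq, norm_YY]
    have hXX : ⟪X, X⟫ = ‖X‖ ^ 2 := real_inner_self_eq_norm_sq X
    have hXY := inner_X_YY X
    have hYX : ⟪YY X, X⟫ = 0 := by rw [real_inner_comm]; exact hXY
    rw [← real_inner_self_eq_norm_sq] at h1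
    simp only [inner_sub_left, inner_sub_right, inner_smul_left, inner_smul_right, hYY, hXX, hXY,
      hYX, conj_trivial, real_inner_comm X V, real_inner_comm (YY X) V] at h1
    rw [real_inner_self_eq_norm_sq] at h1
    have hR2 : ‖X‖ ^ 2 ≠ 0 := by positivity
    have e : ‖V‖ ^ 2 - ⟪X, V⟫ / ‖X‖ ^ 2 * ⟪X, V⟫ = ‖V‖ ^ 2 - ⟪X, V⟫ ^ 2 / ‖X‖ ^ 2 := by ring
    have e2 : ⟪X, V⟫ / ‖X‖ ^ 2 * (⟪X, V⟫ / ‖X‖ ^ 2 * ‖X‖ ^ 2) = ⟪X, V⟫ ^ 2 / ‖X‖ ^ 2 := by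
      field_simp
    have e3 : ⟪YY X, V⟫ / (X 2 ^ 2 + X 3 ^ 2) *
        (⟪YY X, V⟫ / (X 2 ^ 2 + X 3 ^ 2) * (X 2 ^ 2 + X 3 ^ 2)) =
        ⟪YY X, V⟫ ^ 2 / (X 2 ^ 2 + X 3 ^ 2) := by
      field_simp
    have e4 : ⟪YY X, V⟫ / (X 2 ^ 2 + X 3 ^ 2) * ⟪YY X, V⟫ =
        ⟪YY X, V⟫ ^ 2 / (X 2 ^ 2 + X 3 ^ 2) := by ring
    have e5 : ⟪X, V⟫ / ‖X‖ ^ 2 * ⟪X, V⟫ = ⟪X, V⟫ ^ 2 / ‖X‖ ^ 2 := by ring
    simp only [mul_zero, sub_zero, zero_sub] at h1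
    nlinarith [h1, e2, e3, e4, e5]

theorem neck_lower (hq : q.Ok) (hβ : ∀ R, 0 < R → q.β R ≤ 1) (hF : ∀ R, 0 < R → q.F R ≤ 1)
    (hδ : 0 < δ) {X : E4} (hX : X ≠ 0) (V : E4) :
    (q.β ‖X‖ / 4) ^ 2 * ‖V‖ ^ 2 ≤ q.neck δ X V V := by
  have hR : 0 < ‖X‖ := norm_pos_iff.2 hX
  obtain ⟨p, hp, hV⟩ := decomp hX V
  obtain ⟨hN1, hN2⟩ := lapse_bounds hq hδ hX
  obtain ⟨hB1, hB2⟩ := Bh_bounds hq hβ hδ hX
  have hb0 := hq.β_pos _ hR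
  have hb1 := hβ _ hR
  have hF0 := hq.F_pos _ hR
  have hF1 := hF _ hR
  have hH := HH_mul (q := q) hδ hX
  set a := ⟪X, V⟫ ^ 2 / ‖X‖ ^ 2 with ha
  set b := ⟪YY X, V⟫ ^ 2 / (X 2 ^ 2 + X 3 ^ 2) with hb
  have ha0 : 0 ≤ a := by positivity
  have hb0' : 0 ≤ b := by positivity
  have e1 : (q.lapse δ X ^ 2 / q.F ‖X‖ - 1) / ‖X‖ ^ 2 * (⟪X, V⟫ * ⟪X, V⟫) =
      (q.lapse δ X ^ 2 / q.F ‖X‖ - 1) * a := by
    rw [ha]; ring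
  have e2 : q.HH δ X * (⟪YY X, V⟫ * ⟪YY X, V⟫) = (q.Bh δ X ^ 2 - 1) * b := by
    by_cases hz : X 2 ^ 2 + X 3 ^ 2 = 0
    · have h1 : YY X = 0 := by
        rw [← norm_eq_zero, ← sq_eq_zero_iff, norm_YY, hz]
      rw [hb, h1, hz]
      simp
    · rw [← hH, hb]
      field_simp
  rw [neck_apply, e1, e2, real_inner_self_eq_norm_sq, hV]
  have h3 : 49 / 64 ≤ q.lapse δ X ^ 2 / q.F ‖X‖ := by
    rw [le_div_iff₀ hF0]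
    nlinarith
  have h4 : (q.β ‖X‖ / 4) ^ 2 ≤ q.Bh δ X ^ 2 :=
    pow_le_pow_left₀ (by positivity) (by linarith) 2
  have h5 : (q.β ‖X‖ / 4) ^ 2 ≤ 1 / 16 := by nlinarith
  nlinarith [mul_nonneg ha0 (by linarith : (0:ℝ) ≤ q.lapse δ X ^ 2 / q.F ‖X‖ - (q.β ‖X‖ / 4) ^ 2),
    mul_nonneg hb0' (sub_nonneg.2 h4), mul_nonneg hp (by linarith : (0:ℝ) ≤ 1 - (q.β ‖X‖ / 4) ^ 2)]

theorem neck_upper (hq : q.Ok) (hβ : ∀ R, 0 < R → q.β R ≤ 1)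
    (hδ : 0 < δ) {X : E4} (hX : X ≠ 0) (V : E4) {κ : ℝ} (hκ : 0 < κ) (hκF : κ ≤ q.F ‖X‖)
    (hκ1 : κ ≤ 1) : q.neck δ X V V ≤ ‖V‖ ^ 2 / κ := by
  have hR : 0 < ‖X‖ := norm_pos_iff.2 hX
  obtain ⟨hN1, hN2⟩ := lapse_bounds hq hδ hX
  have hF0 := hq.F_pos _ hR
  have hH := HH_nonpos hq hβ hδ hX
  have h1 : ⟪X, V⟫ ^ 2 ≤ ‖X‖ ^ 2 * ‖V‖ ^ 2 := by
    rw [← sq_abs, ← mul_pow]
    exact pow_le_pow_left₀ (abs_nonneg _) (abs_real_inner_le_norm X V) 2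
  have h2 : ⟪X, V⟫ ^ 2 / ‖X‖ ^ 2 ≤ ‖V‖ ^ 2 := by
    rw [div_le_iff₀ (by positivity)]
    linarith
  have e1 : (q.lapse δ X ^ 2 / q.F ‖X‖ - 1) / ‖X‖ ^ 2 * (⟪X, V⟫ * ⟪X, V⟫) =
      (q.lapse δ X ^ 2 / q.F ‖X‖ - 1) * (⟪X, V⟫ ^ 2 / ‖X‖ ^ 2) := by ring
  rw [neck_apply, e1, real_inner_self_eq_norm_sq]
  have h3 : q.lapse δ X ^ 2 / q.F ‖X‖ ≤ 1 / κ := by
    rw [div_le_div_iff₀ hF0 hκ]
    have h9 : q.lapse δ X ^ 2 ≤ 1 := by nlinarith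
    have h10 := mul_le_mul_of_nonneg_right h9 hκ.le
    linarith
  have h4 : 0 ≤ ⟪X, V⟫ ^ 2 / ‖X‖ ^ 2 := by positivity
  have h5 : 1 ≤ 1 / κ := by rw [le_div_iff₀ hκ]; linarith
  have h6 : q.HH δ X * (⟪YY X, V⟫ * ⟪YY X, V⟫) ≤ 0 :=
    mul_nonpos_of_nonpos_of_nonneg hH (mul_self_nonneg _)
  have h7 : (q.lapse δ X ^ 2 / q.F ‖X‖ - 1) * (⟪X, V⟫ ^ 2 / ‖X‖ ^ 2) ≤ (1 / κ - 1) * ‖V‖ ^ 2 := by
    calc _ ≤ (1 / κ - 1) * (⟪X, V⟫ ^ 2 / ‖X‖ ^ 2) :=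
          mul_le_mul_of_nonneg_right (by linarith) h4
      _ ≤ (1 / κ - 1) * ‖V‖ ^ 2 := mul_le_mul_of_nonneg_left h2 (by linarith)
  have h8 : ‖V‖ ^ 2 / κ = ‖V‖ ^ 2 + (1 / κ - 1) * ‖V‖ ^ 2 := by
    field_simp
    ring
  rw [h8]
  linarith

/-- NM -/
theorem nm : NeckMetricStmt := by
  intro q hq hβ hF δ hδ
  refine ⟨⟨isOpen_Om, cdOn_neck hq hδ, ?_, ?_⟩, ?_⟩
  · intro X _ V W
    rw [neck_apply, neck_apply, real_inner_comm V W]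
    ring
  · intro X hX V hV
    have h1 : 0 < ‖V‖ := norm_pos_iff.2 hV
    have h2 := hq.β_pos ‖X‖ (norm_pos_iff.2 hX)
    have h3 : 0 < (q.β ‖X‖ / 4) ^ 2 * ‖V‖ ^ 2 := by positivity
    exact h3.trans_le (neck_lower hq hβ hF hδ hX V)
  · intro r hr hrβ κ hκ hκF X hX V
    have hR : 0 < ‖X‖ := norm_pos_iff.2 hX
    constructor
    · have h1 := neck_lower hq hβ hF hδ hX V
      have h2 : (r / 4) ^ 2 ≤ (q.β ‖X‖ / 4) ^ 2 :=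
        pow_le_pow_left₀ (by positivity) (by linarith [hrβ _ hR]) 2
      exact (mul_le_mul_of_nonneg_right h2 (sq_nonneg _)).trans h1
    · exact neck_upper hq hβ hδ hX V hκ (hκF _ hR) ((hκF _ hR).trans (hF _ hR))

end Pool.Agent.RLim.H31
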